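import Mathlib

namespace Pool.Agent.Results.MP_d5e15b_co.Q1

open Classical

section Defs
variable {V₁ V₂ : Type} (E : V₁ → V₂ → Prop)

def adj : V₁ ⊕ V₂ → V₁ ⊕ V₂ → Prop
  | .inl a, .inr b => E a b
  | .inr b, .inl a => E a b
  | _, _ => False

/-- The bigraph with left vertices `V₁`, right vertices `V₂` and edge relation `E`. -/
def gr : SimpleGraph (V₁ ⊕ V₂) where
  Adj := adj E
  symm := ⟨by rintro (a | a) (b | b) h <;> exact h⟩
  loopless := ⟨by rintro (a | a) h <;> exact h⟩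

/-- An automorphism preserves the edges and the two sides. -/
def IsAut (φ : Equiv.Perm (V₁ ⊕ V₂)) : Prop :=
  (∀ u v, (gr E).Adj (φ u) (φ v) ↔ (gr E).Adj u v) ∧ ∀ v, (φ v).isLeft = v.isLeft

def IsCutInvolution (φ : Equiv.Perm (V₁ ⊕ V₂)) : Prop :=
  IsAut E φ ∧ φ * φ = 1 ∧ ¬ ((gr E).induce {v | φ v ≠ v}).Preconnected

/-- `L` is a union of components of `G - Fix φ` (it avoids `Fix φ` and is closed under adjacency
in `G - Fix φ`), and `L`, `Fix φ`, `φ L` form a partition of the vertex set. -/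
def IsFold (φ : Equiv.Perm (V₁ ⊕ V₂)) (L : Set (V₁ ⊕ V₂)) : Prop :=
  IsCutInvolution E φ ∧ (∀ u ∈ L, φ u ≠ u) ∧
    (∀ u ∈ L, ∀ v, φ v ≠ v → (gr E).Adj u v → v ∈ L) ∧
    Disjoint L (φ '' L) ∧ ∀ v, v ∈ L ∨ φ v = v ∨ v ∈ φ '' L

/-- The left-folding map. -/
noncomputable def foldMap (φ : Equiv.Perm (V₁ ⊕ V₂)) (L : Set (V₁ ⊕ V₂)) (v : V₁ ⊕ V₂) :
    V₁ ⊕ V₂ := if v ∈ L then v else φ v

def LeftCutPercolating : Prop :=
  ∃ u₀ : V₁, Relation.ReflTransGen
    (fun U U' : Set V₁ => ∃ φ L, IsFold E φ L ∧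
      U' = {a | foldMap φ L (.inl a) ∈ Sum.inl '' U}) {u₀} Set.univ

def foldGroup : Subgroup (Equiv.Perm (V₁ ⊕ V₂)) := Subgroup.closure {φ | ∃ L, IsFold E φ L}

end Defs

def masks : Fin 13 → ℕ := ![3, 12, 14, 13, 11, 7, 48, 192, 224, 208, 176, 112, 255]

def E (a : Fin 8) (e : Fin 13) : Prop := (masks e).testBit a = true

instance : ∀ a e, Decidable (E a e) := fun _ _ => by unfold E; infer_instance

instance : DecidableRel (gr E).Adj
  | .inl a, .inr b => inferInstanceAs (Decidable (E a b))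
  | .inr b, .inl a => inferInstanceAs (Decidable (E a b))
  | .inl _, .inl _ => inferInstanceAs (Decidable False)
  | .inr _, .inr _ => inferInstanceAs (Decidable False)

def Pair (a b : Fin 8) : Prop := ∃ e, ∀ c, E c e ↔ c = a ∨ c = b
def R (a b : Fin 8) : Prop := a ≠ b ∧ ¬ Pair a b ∧ ∃ e, E a e ∧ E b e ∧ ∃ c, ¬ E c e

instance : ∀ a b, Decidable (Pair a b) := fun _ _ => by unfold Pair; infer_instance
instance : ∀ a b, Decidable (R a b) := fun _ _ => by unfold R; infer_instance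

lemma key : ∀ a b, R a b → ∃ a', Pair a a' ∧ ∀ x y, x ≠ a → Pair x y →
    ¬ ∀ e, E a e → E b e → (E x e ∧ (E y e ↔ E a' e)) := by decide +kernel

lemma step {φ : Equiv.Perm (Fin 8 ⊕ Fin 13)} {L : Set (Fin 8 ⊕ Fin 13)} (h : IsFold E φ L)
    {U : Set (Fin 8)} (hU : ∀ a ∈ U, ∀ b ∈ U, ¬ R a b) :
    ∀ a, foldMap φ L (.inl a) ∈ Sum.inl '' U → ∀ b, foldMap φ L (.inl b) ∈ Sum.inl '' U →
      ¬ R a b := by
  obtain ⟨⟨⟨h1, h2⟩, h3, _⟩, h4, h5, h6, h7⟩ := h
  have h3' : ∀ v, φ (φ v) = v := fun v => by rw [← Equiv.Perm.mul_apply, h3]; rfl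
  choose f hf using fun a : Fin 8 => Sum.isLeft_iff.1 (h2 (.inl a))
  have h2' : ∀ e : Fin 13, (φ (.inr e)).isRight = true := fun e => by
    have := h2 (.inr e); rw [← Sum.not_isLeft, this]; simp
  choose g hg using fun e : Fin 13 => Sum.isRight_iff.1 (h2' e)
  have ff : ∀ a, f (f a) = a := fun a => Sum.inl_injective (by rw [← hf, ← hf, h3'])
  have gg : ∀ a, g (g a) = a := fun a => Sum.inr_injective (by rw [← hg, ← hg, h3'])
  have hE : ∀ a e, E (f a) (g e) ↔ E a e := fun a e => by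
    have := h1 (.inl a) (.inr e); rwa [hf, hg] at this
  have hP : ∀ a b, Pair a b → Pair (f a) (f b) := by
    rintro a b ⟨e, he⟩
    refine ⟨g e, fun c => ?_⟩
    rw [← ff c, hE, he, ff]
    constructor <;> rintro (h | h)
    exacts [Or.inl (by rw [← h, ff]), Or.inr (by rw [← h, ff]), Or.inl (by rw [h, ff]),
      Or.inr (by rw [h, ff])]
  have hR : ∀ a b, R a b → R (f a) (f b) := by
    rintro a b ⟨e1, e2, e, e3, e4, c, e5⟩
    refine ⟨fun h => e1 (by rw [← ff a, h, ff]), fun h => e2 ?_, g e, (hE _ _).2 e3, (hE _ _).2 e4,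
      f c, fun h => e5 ((hE _ _).1 h)⟩
    have := hP _ _ h
    rwa [ff, ff] at this
  have hs : ∀ a b, R a b → R b a := by decide +kernel
  have mixed : ∀ a b, R a b → .inl a ∈ L → .inl b ∉ L → φ (.inl b) = .inl b := by
    intro a b hab ha hb
    by_contra hc
    obtain ⟨a', p1, p2⟩ := key a b hab
    refine p2 (f a) (f a') (fun e => h4 _ ha (by rw [hf, e])) (hP _ _ p1) fun e e1 e2 => ?_
    have fx : g e = e := by
      by_contra hne
      have m1 := h5 _ ha (.inr e) (by rw [hg]; simpa using hne) e1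
      exact hb (h5 _ m1 (.inl b) hc e2)
    exact ⟨by rw [← fx, hE]; exact e1, by rw [← hE a' e, fx]⟩
  intro a ha b hb hab
  unfold foldMap at ha hb
  have inj : ∀ c : Fin 8, (.inl c : Fin 8 ⊕ Fin 13) ∈ Sum.inl '' U → c ∈ U := by
    rintro c ⟨d, hd, e⟩; rwa [← Sum.inl_injective e]
  split_ifs at ha hb with m1 m2 m2
  · exact hU a (inj _ ha) b (inj _ hb) hab
  · rw [mixed a b hab m1 m2] at hb; exact hU a (inj _ ha) b (inj _ hb) hab
  · rw [mixed b a (hs _ _ hab) m2 m1] at ha; exact hU a (inj _ ha) b (inj _ hb) hab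
  · rw [hf] at ha hb; exact hU _ (inj _ ha) _ (inj _ hb) (hR _ _ hab)

def t0 : Fin 8 ⊕ Fin 13 → Fin 8 ⊕ Fin 13 :=
  Sum.map ![4, 5, 6, 7, 0, 1, 2, 3] ![6, 7, 8, 9, 10, 11, 0, 1, 2, 3, 4, 5, 12]
def t1 : Fin 8 ⊕ Fin 13 → Fin 8 ⊕ Fin 13 :=
  Sum.map ![6, 7, 5, 4, 3, 2, 0, 1] ![7, 6, 10, 11, 9, 8, 1, 0, 5, 4, 2, 3, 12]

def inL : Fin 8 ⊕ Fin 13 → Bool
  | .inl a => a.1 < 4
  | .inr e => e.1 < 6

lemma fold_of (t : Fin 8 ⊕ Fin 13 → Fin 8 ⊕ Fin 13) (ht : Function.Involutive t)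
    (h : (∀ u v, (gr E).Adj (t u) (t v) ↔ (gr E).Adj u v) ∧ (∀ v, (t v).isLeft = v.isLeft) ∧
      (∀ u, inL u = true → t u ≠ u) ∧ (∀ u, inL u = true → ∀ v, t v ≠ v → (gr E).Adj u v →
        inL v = true) ∧ (∀ u, inL u = true → inL (t u) = false) ∧
      (∀ v, inL v = true ∨ t v = v ∨ inL (t v) = true) ∧ t (.inl 4) ≠ .inl 4) :
    ht.toPerm t ∈ foldGroup E := by
  obtain ⟨h1, h2, h3, h4, h5, h6, h7⟩ := h
  refine Subgroup.subset_closure ⟨{v | inL v = true}, ⟨⟨h1, h2⟩, Equiv.ext ht, fun hc => ?_⟩, h3, h4,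
    ?_, fun v => ?_⟩
  · have := hc ⟨.inl 0, h3 _ rfl⟩ ⟨.inl 4, h7⟩
    rw [SimpleGraph.reachable_iff_reflTransGen] at this
    have k : ∀ v : {v | ht.toPerm t v ≠ v}, Relation.ReflTransGen
        ((gr E).induce {v | ht.toPerm t v ≠ v}).Adj ⟨.inl 0, h3 _ rfl⟩ v → inL v.1 = true := by
      intro v hv
      induction hv with
      | refl => rfl
      | @tail _ c _ h ih => exact h4 _ ih _ c.2 h
    exact absurd (show inL (.inl 4) = true from k _ this) (by decide)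
  · rw [Set.disjoint_right]
    rintro _ ⟨u, hu, rfl⟩ h
    have := h5 u hu
    rw [show inL (t u) = true from h] at this
    exact absurd this (by simp)
  · rcases h6 v with h | h | h
    exacts [Or.inl h, Or.inr (Or.inl h), Or.inr (Or.inr ⟨t v, h, ht v⟩)]

theorem result : ∃ (V₁ V₂ : Type) (_ : Fintype V₁) (_ : Fintype V₂) (E : V₁ → V₂ → Prop),
    (gr E).Connected ∧ (∀ a b : V₁, ∃ γ ∈ foldGroup E, γ (.inl a) = .inl b) ∧
      ¬ LeftCutPercolating E := by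
  refine ⟨Fin 8, Fin 13, inferInstance, inferInstance, E, ?_, ?_, ?_⟩
  · rw [SimpleGraph.connected_iff_exists_forall_reachable]
    refine ⟨.inr 12, fun v => ?_⟩
    have : ∀ v, v = .inr 12 ∨ (gr E).Adj (.inr 12) v ∨
        ∃ u, (gr E).Adj (.inr 12) u ∧ (gr E).Adj u v := by decide +kernel
    rcases this v with h | h | ⟨u, h, h'⟩
    exacts [h ▸ .refl _, h.reachable, h.reachable.trans h'.reachable]
  · have i0 : Function.Involutive t0 := by unfold Function.Involutive; decide +kernel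
    have i1 : Function.Involutive t1 := by unfold Function.Involutive; decide +kernel
    have m0 := fold_of t0 i0 (by decide +kernel)
    have m1 := fold_of t1 i1 (by decide +kernel)
    have m2 := mul_mem m0 m1
    have m3 := mul_mem m2 m2
    have m4 := mul_mem m2 m3
    have : ∀ a b : Fin 8, ∃ x ∈ [Sum.inl a, t0 (.inl a)], x = .inl b ∨ t0 (t1 x) = .inl b ∨
        t0 (t1 (t0 (t1 x))) = .inl b ∨ t0 (t1 (t0 (t1 (t0 (t1 x))))) = .inl b := by
      decide +kernel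
    intro a b
    obtain ⟨x, hx, h⟩ := this a b
    simp only [List.mem_cons, List.not_mem_nil, or_false] at hx
    rcases hx with rfl | rfl <;> rcases h with h | h | h | h
    exacts [⟨1, one_mem _, h⟩, ⟨_, m2, h⟩, ⟨_, m3, h⟩, ⟨_, m4, h⟩, ⟨_, m0, h⟩,
      ⟨_, mul_mem m2 m0, h⟩, ⟨_, mul_mem m3 m0, h⟩, ⟨_, mul_mem m4 m0, h⟩]
  · rintro ⟨u, h⟩
    have k : ∀ U, Relation.ReflTransGen (fun U U' : Set (Fin 8) => ∃ φ L, IsFold E φ L ∧
        U' = {a | foldMap φ L (.inl a) ∈ Sum.inl '' U}) {u} U → ∀ a ∈ U, ∀ b ∈ U, ¬ R a b := by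
      intro U hU
      induction hU with
      | refl => rintro a rfl b rfl h; exact h.1 rfl
      | tail _ h ih =>
        obtain ⟨φ, L, h, rfl⟩ := h
        exact fun a ha b hb => step h ih a ha b hb
    exact k _ h 0 trivial 2 trivial (by decide)

end Pool.Agent.Results.MP_d5e15b_co.Q1
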